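import Pool.Agent.K1H54.NU.Stm5
import Pool.Agent.K1H39.NU.Posc

/-!
# NU-POSE: a continuum of Leray-Hopf solutions for the infinite system at every time
-/

open Set Filter Topology MeasureTheory
open scoped ENNReal

set_option autoImplicit false

namespace Pool.Agent.K1H33.NU

open Pool.Agent.K1H54.NU Pool.Agent.K1H10.NU Pool.Agent.K1H39.NU

/-- a bound of the dissipation in one shell -/
theorem exists_bound (G : GS) (n : ℕ) (B : ℝ) :
    ∃ C, (∀ j, G.sh' j = n → G.d' j ≤ C) ∧ B ≤ C := by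
  have hf : {j | G.sh' j = n}.Finite := by
    refine ((G.fin' n true).union (G.fin' n false)).subset fun j hj => ?_
    have hj' : G.sh' j = n := hj
    cases hb : G.ty' j with
    | true => exact Or.inl ⟨hj', hb⟩
    | false => exact Or.inr ⟨hj', hb⟩
  obtain ⟨C, hC⟩ := (hf.image G.d').bddAbove
  exact ⟨max C B, fun j hj => (hC ⟨j, hj, rfl⟩).trans (le_max_left _ _), le_max_right _ _⟩

theorem t_POSE (h1 : S_TREX) (h2 : S_CPT2) (h3 : S_FIRE) (h4 : S_CDP) (hPP : S_PP) : S_POSE := by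
  classical
  intro G n₁ M Λ a x₀ hF ha hD haM hen hZ hJ t ht
  have hen' : G.en x₀ ≠ ⊤ := ne_top_of_le_ne_top ENNReal.ofReal_ne_top hen
  have hres0 : ∀ k j, res G x₀ k (Sum.inr j) = 0 := by
    intro k j
    unfold res
    rw [hJ j]
    split_ifs <;> rfl
  have hres_ev : ∀ i, ∀ᶠ k in atTop, res G x₀ k i = x₀ i := fun i => by
    filter_upwards [eventually_ge_atTop (G.s i)] with k hk
    unfold res
    rw [if_pos hk]
  -- the truncated solutions
  obtain ⟨wd, hwd⟩ : ∃ wd : ℕ → ℝ → G.I ⊕ G.J → ℝ,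
    wd = fun k θ i => res G x₀ k i + pk G k (θ * (a k / 4)) i := ⟨_, rfl⟩
  have hW : ∀ k θ, ∃ W : ℝ → G.I ⊕ G.J → ℝ, W 0 = wd k θ ∧ G.Tr k W := fun k θ =>
    h1 G k (wd k θ) fun i hi => by
      have h4 : res G x₀ k i = 0 := if_neg (not_le.2 hi)
      have h5 : pk G k (θ * (a k / 4)) i = 0 := by
        cases i with
        | inl i => rfl
        | inr j =>
          have h6 : k < G.sh' j := hi
          change fl G.sh' G.ty' G.ρ' true k j * (θ * (a k / 4)) = 0
          unfold fl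
          rw [if_neg (fun h7 => by omega), zero_mul]
      rw [hwd]
      dsimp only
      rw [h4, h5, add_zero]
  choose W hW0 hWT using hW
  have hWl : ∀ k θ i, W k θ 0 (Sum.inl i) = res G x₀ k (Sum.inl i) := fun k θ i => by
    rw [hW0, hwd]
    change res G x₀ k (Sum.inl i) + 0 = _
    rw [add_zero]
  have hWr : ∀ k θ j, W k θ 0 (Sum.inr j) = fl G.sh' G.ty' G.ρ' true k j * (θ * (a k / 4)) :=
    fun k θ j => by
    rw [hW0, hwd]
    change res G x₀ k (Sum.inr j) + fl G.sh' G.ty' G.ρ' true k j * (θ * (a k / 4)) = _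
    rw [hres0, zero_add]
  have hWen : ∀ k θ, G.en (W k θ 0) =
      G.en (res G x₀ k) + ENNReal.ofReal ((θ * (a k / 4)) ^ 2) := fun k θ => by
    rw [hW0, hwd]
    exact en_add G x₀ hJ k (θ * (a k / 4))
  -- continuity in the parameter
  have hcont : ∀ k t, 0 ≤ t → ∀ i, Continuous fun θ => W k θ t i := by
    intro k t ht i
    refine h4 G k (W k) (hWT k) (fun i => ?_) t ht i
    cases i with
    | inl i =>
      simp only [hWl]
      exact continuous_const
    | inr j =>
      simp only [hWr]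
      fun_prop
  have hPcont : ∀ k t, 0 ≤ t → ∀ n, Continuous fun θ => G.P n (W k θ t) := by
    intro k t ht n
    simp only [P_eq_sum]
    exact continuous_finsetSum _ fun j _ => (hcont k t ht (Sum.inr j)).const_mul _
  -- the solutions with the parameter zero
  have hPz : ∀ k t, 0 ≤ t → ∀ n, G.P n (W k 0 t) = 0 := by
    intro k t ht n
    obtain ⟨A, hA0, hAT⟩ := h1 (G0 G) k (res G x₀ k) fun i hi => by
      unfold res
      exact if_neg (not_le.2 hi)
    have hAj : ∀ j, A 0 (Sum.inr j) = 0 := fun j => by rw [hA0, hres0]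
    have h5 : W k 0 t = A t := by
      refine uniq h4 G k (W k 0) A (hWT k 0) (tr_of G hAT hAj) ?_ t ht
      rw [hA0]
      funext i
      cases i with
      | inl i => exact hWl k 0 i
      | inr j => rw [hWr, hres0, zero_mul, mul_zero]
    rw [h5]
    exact P_zero G (inr_zero G hAT hAj t ht) n
  -- the parameters tend to infinity
  have hra : Tendsto (fun n => G.r n * a n) atTop atTop := by
    have hpos : 0 < G.r n₁ * a n₁ := mul_pos (hF.rp n₁) (hF.a0 n₁)
    have h4 : ∀ k, G.r n₁ * a n₁ * 4 ^ k ≤ G.r (k + n₁) * a (k + n₁) := by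
      intro k
      induction k with
      | zero => simp
      | succ k ih =>
        have h5 := hF.mu (k + n₁) (Nat.le_add_left _ _)
        rw [show k + 1 + n₁ = k + n₁ + 1 by ring]
        calc G.r n₁ * a n₁ * 4 ^ (k + 1) = 4 * (G.r n₁ * a n₁ * 4 ^ k) := by ring
          _ ≤ 4 * (G.r (k + n₁) * a (k + n₁)) := by gcongr
          _ ≤ _ := h5
    have h5 : Tendsto (fun k : ℕ => G.r n₁ * a n₁ * 4 ^ k) atTop atTop :=
      (tendsto_pow_atTop_atTop_of_one_lt (by norm_num : (1 : ℝ) < 4)).const_mul_atTop hpos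
    exact (tendsto_add_atTop_iff_nat n₁).1 (tendsto_atTop_mono h4 h5)
  have hτ : ∀ᶠ n in atTop, Λ / (G.r n * a n) < t := by
    have h4 : Tendsto (fun n => Λ / (G.r n * a n)) atTop (𝓝 0) :=
      Tendsto.div_atTop tendsto_const_nhds hra
    exact (tendsto_order.1 h4).2 t ht
  obtain ⟨m₀, hm₀⟩ := eventually_atTop.1 hτ
  obtain ⟨m, hm⟩ : ∃ m, m = max m₀ n₁ := ⟨_, rfl⟩
  have hmn : n₁ ≤ m := by rw [hm]; exact le_max_right _ _
  have hmm : m₀ ≤ m := by rw [hm]; exact le_max_left _ _
  obtain ⟨τ, hτd⟩ : ∃ τ : ℝ, τ = max (Λ / (G.r m * a m)) (Λ / (G.r (m + 1) * a (m + 1))) :=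
    ⟨_, rfl⟩
  have hτη : τ < t := by
    rw [hτd]
    exact max_lt (hm₀ m hmm) (hm₀ (m + 1) (by omega))
  have hM0 := hF.M0
  have hWM : ∀ k, G.en (W k 1 0) ≤ ENNReal.ofReal (M ^ 2) := by
    intro k
    rw [hWen, one_mul]
    have ha0 := hF.a0 k
    have ha1 := haM k
    calc G.en (res G x₀ k) + ENNReal.ofReal ((a k / 4) ^ 2)
        ≤ ENNReal.ofReal (M ^ 2 / 2) + ENNReal.ofReal (M ^ 2 / 16) := by
          refine add_le_add ((en_res_le G x₀ k).trans hen) (ENNReal.ofReal_le_ofReal ?_)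
          nlinarith
      _ = ENNReal.ofReal (M ^ 2 / 2 + M ^ 2 / 16) :=
          (ENNReal.ofReal_add (by positivity) (by positivity)).symm
      _ ≤ _ := ENNReal.ofReal_le_ofReal (by nlinarith [sq_nonneg M])
  have hbd := fun n => exists_bound G n ((G.r n + G.r (n - 1)) * M)
  choose C hC1 hC2 using hbd
  have hC0 : ∀ n, 0 ≤ C n := fun n =>
    (mul_nonneg (add_nonneg (G.r0 _) (G.r0 _)) hM0.le).trans (hC2 n)
  obtain ⟨c, hc⟩ : ∃ c : ℕ → ℝ, c = fun n => Real.exp (-(2 * C n * t)) * (a n / 4) := ⟨_, rfl⟩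
  have hc0 : ∀ n, 0 < c n := fun n => by
    rw [hc]
    exact mul_pos (Real.exp_pos _) (by linarith [hF.a0 n])
  -- the inverse cascade
  have hfire : ∀ k, m + 1 < k → ∃ n, (n = m ∨ n = m + 1) ∧ c n ≤ G.P n (W k 1 t) := by
    intro k hk
    obtain ⟨n, hn, s, hs, hP⟩ := h3 G n₁ k M Λ a (W k 1) hF (by omega) (hWT k 1) (hWM k)
      (fun n hn hnN => by
        refine (hZ n hn).trans_eq ?_
        unfold GS.Z ap
        refine tsum_congr fun i => ?_
        dsimp only
        rw [hWl]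
        by_cases hi : G.sh i = n ∧ G.ty i = false
        · have h7 : res G x₀ k (Sum.inl i) = x₀ (Sum.inl i) := by
            unfold res
            rw [if_pos]
            change G.sh i ≤ k
            rw [hi.1]
            exact hnN
          rw [h7]
        · unfold fl
          rw [if_neg hi, zero_mul, zero_mul])
      (fun j hj => by
        rw [hWr]
        unfold fl
        rw [if_neg (fun h7 => by omega), zero_mul])
      (fun j _ => by
        rw [hWr, one_mul])
      m hmn (by omega)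
    refine ⟨n, hn, ?_⟩
    have hnk : n < k := by omega
    have hst : s ≤ t := by
      refine (hs.2.trans ?_).trans hτη.le
      rw [hτd]
      rcases hn with rfl | rfl
      · exact le_max_left _ _
      · exact le_max_right _ _
    have h5 := (hPP G k n M (C n) (W k 1) (hWT k 1) hnk.le hM0.le (hWM k) (fun j hj => by
      rw [hWr]
      unfold fl
      rw [if_neg (fun h7 => by omega), zero_mul]) (hC1 n) (hC2 n) s t hs.1 hst).2
    refine le_trans ?_ h5
    rw [hc]
    have h6 : Real.exp (-(2 * C n * t)) ≤ Real.exp (-(2 * C n * (t - s))) := by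
      apply Real.exp_le_exp.2
      have := mul_nonneg (hC0 n) hs.1
      nlinarith
    have h7 := hF.a0 n
    exact mul_le_mul h6 hP (by positivity) (Real.exp_pos _).le
  -- one shell, infinitely many levels
  obtain ⟨n, hnm, hfr⟩ : ∃ n, (n = m ∨ n = m + 1) ∧ ∃ᶠ k in atTop, c n ≤ G.P n (W k 1 t) := by
    have h5 : ∀ᶠ k in atTop, (c m ≤ G.P m (W k 1 t)) ∨ (c (m + 1) ≤ G.P (m + 1) (W k 1 t)) := by
      filter_upwards [eventually_gt_atTop (m + 1)] with k hk
      obtain ⟨n, hn, hs⟩ := hfire k hk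
      rcases hn with rfl | rfl
      · exact Or.inl hs
      · exact Or.inr hs
    rcases Filter.frequently_or_distrib.1 h5.frequently with h6 | h6
    · exact ⟨m, Or.inl rfl, h6⟩
    · exact ⟨m + 1, Or.inr rfl, h6⟩
  obtain ⟨ψ, hψ, hψs⟩ := Filter.extraction_of_frequently_atTop hfr
  -- the solutions
  have key : ∀ θ : ℝ, ∃ w : ℝ → G.I ⊕ G.J → ℝ, θ ∈ Icc (0 : ℝ) 1 →
      w 0 = x₀ ∧ G.LH w ∧ G.P n (w t) = θ * c n := by
    intro θ
    by_cases hθ : θ ∈ Icc (0 : ℝ) 1
    swap
    · exact ⟨fun _ => x₀, fun h => absurd h hθ⟩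
    have hiv : ∀ j, ∃ θ' ∈ Icc (0 : ℝ) 1, G.P n (W (ψ j) θ' t) = θ * c n := by
      intro j
      have h5 := intermediate_value_Icc (zero_le_one (α := ℝ))
        ((hPcont (ψ j) t ht.le n).continuousOn (s := Icc 0 1))
      have h6 : θ * c n ∈ Icc (G.P n (W (ψ j) 0 t)) (G.P n (W (ψ j) 1 t)) := by
        rw [hPz (ψ j) t ht.le n]
        refine ⟨mul_nonneg hθ.1 (hc0 n).le, le_trans ?_ (hψs j)⟩
        exact mul_le_of_le_one_left (hc0 n).le hθ.2
      obtain ⟨θ', hθ', he⟩ := h5 h6
      exact ⟨θ', hθ', he⟩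
    choose θ' hθ' hPθ' using hiv
    obtain ⟨φ, w, hφ, hw0, hwLH, hwc⟩ := h2 G x₀ ψ (fun j => W (ψ j) (θ' j)) hψ.tendsto_atTop hD
      (fun j => hWT _ _) hen' (fun i => by
        cases i with
        | inl i =>
          simp only [hWl]
          refine tendsto_const_nhds.congr' ?_
          filter_upwards [hψ.tendsto_atTop.eventually (hres_ev (Sum.inl i))] with k hk
          exact hk.symm
        | inr j =>
          simp only [hWr, hJ]
          refine tendsto_const_nhds.congr' ?_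
          filter_upwards [hψ.tendsto_atTop.eventually (eventually_gt_atTop (G.sh' j))] with k hk
          unfold fl
          rw [if_neg (fun h7 => by omega), zero_mul]) (by
        simp only [hWen]
        have h5 : Tendsto (fun k => (θ' k * (a (ψ k) / 4)) ^ 2) atTop (𝓝 0) := by
          have h6 : Tendsto (fun k => (a (ψ k) / 4) ^ 2) atTop (𝓝 0) := by
            have := ((ha.comp hψ.tendsto_atTop).div_const 4).pow 2
            simpa using this
          refine squeeze_zero (fun k => sq_nonneg _) (fun k => ?_) h6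
          rw [mul_pow]
          have h7 : θ' k ^ 2 ≤ 1 := pow_le_one₀ (hθ' k).1 (hθ' k).2
          calc θ' k ^ 2 * (a (ψ k) / 4) ^ 2 ≤ 1 * (a (ψ k) / 4) ^ 2 :=
                mul_le_mul_of_nonneg_right h7 (sq_nonneg _)
            _ = _ := one_mul _
        have h6 := ENNReal.tendsto_ofReal h5
        rw [ENNReal.ofReal_zero] at h6
        have h7 := ((en_res_tendsto G x₀).comp hψ.tendsto_atTop).add h6
        rwa [add_zero] at h7)
    refine ⟨w, fun _ => ⟨hw0, hwLH, ?_⟩⟩
    have h5 : ∀ i, Tendsto (fun k => W (ψ (φ k)) (θ' (φ k)) t i) atTop (𝓝 (w t i)) := fun i =>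
      (hwc i t).tendsto_at ⟨ht.le, le_rfl⟩
    have h6 := P_tendsto G n (fun k => W (ψ (φ k)) (θ' (φ k)) t) (w t) h5
    simp only [hPθ'] at h6
    exact tendsto_nhds_unique h6 tendsto_const_nhds
  choose w hw using key
  refine ⟨w, fun θ hθ => ⟨(hw θ hθ).1, (hw θ hθ).2.1⟩, ?_⟩
  intro θ₁ hθ₁ θ₂ hθ₂ he
  have h5 := (hw θ₁ hθ₁).2.2
  have h6 := (hw θ₂ hθ₂).2.2
  have h7 : w θ₁ t = w θ₂ t := he
  rw [h7, h6] at h5
  exact (mul_right_cancel₀ (hc0 n).ne' h5).symm

end Pool.Agent.K1H33.NU
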