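import Pool.Agent.K1H54.NU.Stm5
import Pool.Agent.K1H39.NU.Glue
import Pool.Agent.K1H52.NU.Fire

/-!
# NU-PP: packets of the inverse cascade do not vanish again
-/

open Set Filter Topology MeasureTheory
open scoped ENNReal

set_option autoImplicit false

namespace Pool.Agent.K1H33.NU

open Pool.Agent.K1H54.NU

theorem x_contOn {G : GS} {N : ℕ} {x : ℝ → G.I ⊕ G.J → ℝ} (hx : G.Tr N x) :
    ContinuousOn x (Ici 0) := by
  refine continuousOn_pi.2 fun i => ?_
  by_cases hi : G.s i ≤ N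
  · exact Pool.Agent.K1H52.NU.x_cont hx hi
  · have h0 : (fun t => x t i) = fun _ => 0 := by
      funext t
      exact hx.out t i (not_le.1 hi)
    rw [h0]
    exact continuousOn_const

theorem t_PP (h1 : S_VOL) (h2 : S_TREN) : S_PP := by
  classical
  intro G N n M C x hx hn hM hE0 hz hd hrM
  have hE : ∀ t, 0 ≤ t → G.en (x t) ≤ ENNReal.ofReal (M ^ 2) := fun t ht =>
    (le_self_add.trans_eq (h2 G N x hx 0 t le_rfl ht)).trans hE0
  have hxc := x_contOn hx
  obtain ⟨S, hS⟩ : ∃ S, S = (G.fin' n true).toFinset := ⟨_, rfl⟩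
  have hmem : ∀ j ∈ S, G.sh' j = n ∧ G.ty' j = true := fun j hj => by
    rw [hS] at hj
    have h3 := (Set.Finite.mem_toFinset _).1 hj
    exact h3
  have hcard : S.card = G.ρ' n := by
    rw [hS]
    exact Pool.Agent.K1H52.NU.cardf _ (G.card' n true)
  have hρ : (0 : ℝ) < G.ρ' n := by exact_mod_cast G.pos' n
  have hsq : 0 < √(G.ρ' n : ℝ) := Real.sqrt_pos.2 hρ
  have hne : Nonempty {j // j ∈ S} := by
    have : 0 < S.card := by rw [hcard]; exact G.pos' n
    obtain ⟨j, hj⟩ := Finset.card_pos.1 this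
    exact ⟨⟨j, hj⟩⟩
  refine h1 {j // j ∈ S} inferInstance hne (fun j => G.d' j.1)
    (fun j t => √(G.ρ' n : ℝ) * x t (Sum.inr j.1)) (fun t => G.P n (x t))
    (fun t => G.r n * G.Z n (x t) - (if n = 0 then 0 else G.r (n - 1) * G.P (n - 1) (x t)))
    (fun t => G.r n * G.P (n + 1) (x t) ^ 2) C (fun j => ⟨G.d0' _, hd _ (hmem _ j.2).1⟩)
    (fun t ht => ?_) (fun t _ => mul_nonneg (G.r0 n) (sq_nonneg _)) ?_ ?_ (fun t => ?_)
    (fun j t ht => ?_) (fun j => ?_)
  · -- the bound of `b`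
    have hZ := Pool.Agent.K1H52.NU.Z_le hM (hE t ht) n
    have hP := Pool.Agent.K1H52.NU.P_le hM (hE t ht) (n - 1)
    have hr := G.r0 n
    have hr' := G.r0 (n - 1)
    have h3 : |G.r n * G.Z n (x t)| ≤ G.r n * M := by
      rw [abs_mul, abs_of_nonneg hr]
      exact mul_le_mul_of_nonneg_left hZ hr
    have h4 : |if n = 0 then 0 else G.r (n - 1) * G.P (n - 1) (x t)| ≤ G.r (n - 1) * M := by
      split_ifs
      · rw [abs_zero]
        positivity
      · rw [abs_mul, abs_of_nonneg hr']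
        exact mul_le_mul_of_nonneg_left hP hr'
    refine (abs_sub _ _).trans ?_
    linarith
  · refine (((Pool.Agent.K1H39.NU.cont_Z G n).comp_continuousOn hxc).const_mul _).sub ?_
    split_ifs
    · exact continuousOn_const
    · exact ((Pool.Agent.K1H39.NU.cont_P G (n - 1)).comp_continuousOn hxc).const_mul _
  · exact (((Pool.Agent.K1H39.NU.cont_P G (n + 1)).comp_continuousOn hxc).pow 2).const_mul _
  · -- the mean
    show G.P n (x t) = _
    rw [Pool.Agent.K1H52.NU.P_eq, ← hS, Fintype.card_coe, hcard,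
      Finset.sum_coe_sort S (fun j => √(G.ρ' n : ℝ) * x t (Sum.inr j)), ← Finset.mul_sum,
      ← Finset.mul_sum]
    have h3 : (G.ρ' n : ℝ) = √(G.ρ' n : ℝ) * √(G.ρ' n : ℝ) := (Real.mul_self_sqrt hρ.le).symm
    rw [inv_mul_eq_div, div_eq_div_iff hsq.ne' hρ.ne']
    conv_lhs => rw [h3]
    ring
  · -- the equation
    have hm := hmem _ j.2
    have h3 := (hx.ode (Sum.inr j.1) (by simpa [GS.s, hm.1] using hn) t ht).const_mul
      (√(G.ρ' n : ℝ))
    refine h3.congr_deriv ?_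
    have h4 : G.vf (x t) (Sum.inr j.1) = (√(G.ρ' n : ℝ))⁻¹ *
        (G.r n * (G.P n (x t) * G.Z n (x t) + G.P (n + 1) (x t) ^ 2)
          - (if n = 0 then 0 else G.r (n - 1) * (G.P n (x t) * G.P (n - 1) (x t)))) := by
      show (√(G.ρ' (G.sh' j.1) : ℝ))⁻¹ * (if G.ty' j.1 = true then _ else _) = _
      rw [hm.1, hm.2, if_pos rfl]
    rw [h4]
    have h5 : √(G.ρ' n : ℝ) * (√(G.ρ' n : ℝ))⁻¹ = 1 := mul_inv_cancel₀ hsq.ne'
    show √(G.ρ' n : ℝ) * (-(G.d' j.1 * x t (Sum.inr j.1)) + _) = _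
    rw [mul_add, ← mul_assoc _ _⁻¹, h5]
    split_ifs <;> ring
  · show √(G.ρ' n : ℝ) * x 0 (Sum.inr j.1) = 0
    rw [hz _ (hmem _ j.2).1, mul_zero]

end Pool.Agent.K1H33.NU
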